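import Pool.Agent.H41.Tcf

set_option autoImplicit false

namespace Pool.Agent.Results.MP_db83b6_pr.Fails

open Pool.Agent.H41.Tcf

/-- For every `n ≥ 6` the spindle `TCF_n(v₀,v₁)` is not contained in `PSD_n`. -/
theorem result (n : ℕ) (hn : 6 ≤ n) : ¬ Spindle n ⊆ PSD n := by
  obtain ⟨N, rfl⟩ : ∃ N, n = N + 1 := ⟨n - 1, by omega⟩
  exact fun h => star_not N (by omega) (h (star_mem N (by omega)))

end Pool.Agent.Results.MP_db83b6_pr.Fails
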